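import Pool.Agent.H566.KTs

set_option autoImplicit false

/-!
# Moments of the factor of the large primes
-/

namespace Pool.Agent.H122.KM

open Finset Pool.Agent.H566.KM

/-- the factor minus one -/
noncomputable def gk (k p : ℕ) : ℝ := ((1 - 1 / (p : ℝ))⁻¹) ^ k - 1

theorem gk_nonneg {k p : ℕ} (hp : 2 ≤ p) : 0 ≤ gk k p := by
  unfold gk
  have h1 : (2 : ℝ) ≤ p := by exact_mod_cast hp
  have h2 : 0 < 1 - 1 / (p : ℝ) := by
    rw [sub_pos, div_lt_one (by linarith)]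
    linarith
  have h3 : 1 ≤ (1 - 1 / (p : ℝ))⁻¹ := by
    apply (one_le_inv₀ h2).2
    have : 0 ≤ 1 / (p : ℝ) := by positivity
    linarith
  have h4 := one_le_pow₀ (n := k) h3
  linarith

theorem gk_le {k p : ℕ} (hk : 1 ≤ k) (hp : k + 1 ≤ p) : gk k p ≤ 2 * (k / ((p : ℝ) - 1)) := by
  unfold gk
  have h1 : (k : ℝ) + 1 ≤ p := by exact_mod_cast hp
  have hk1 : (1 : ℝ) ≤ k := by exact_mod_cast hk
  have hp1 : (0 : ℝ) < (p : ℝ) - 1 := by linarith
  have h2 : (1 - 1 / (p : ℝ))⁻¹ = 1 / ((p : ℝ) - 1) + 1 := by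
    have : (p : ℝ) ≠ 0 := by linarith
    field_simp
    ring
  have h3 : (1 - 1 / (p : ℝ))⁻¹ ≤ Real.exp (1 / ((p : ℝ) - 1)) := by
    rw [h2]
    exact Real.add_one_le_exp _
  have h0 : 0 ≤ (1 - 1 / (p : ℝ))⁻¹ := by
    rw [h2]
    positivity
  have h4 : ((1 - 1 / (p : ℝ))⁻¹) ^ k ≤ Real.exp ((k : ℝ) / ((p : ℝ) - 1)) := by
    refine (pow_le_pow_left₀ h0 h3 k).trans (le_of_eq ?_)
    rw [← Real.exp_nat_mul]
    congr 1
    ring
  have h5 : (k : ℝ) / ((p : ℝ) - 1) ≤ 1 := by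
    rw [div_le_one hp1]
    linarith
  have h6 : 0 ≤ (k : ℝ) / ((p : ℝ) - 1) := by positivity
  have h7 := Real.abs_exp_sub_one_le (x := (k : ℝ) / ((p : ℝ) - 1)) (by rwa [abs_of_nonneg h6])
  rw [abs_of_nonneg h6] at h7
  have h8 := le_abs_self (Real.exp ((k : ℝ) / ((p : ℝ) - 1)) - 1)
  linarith

/-- the primes in `(w, H]` -/
def PP (w H : ℕ) : Finset ℕ := (Ioc w H).filter Nat.Prime

theorem GG_eq {w k H h : ℕ} (hh : h ∈ Icc 1 H) :
    GG w h ^ k = ∑ S ∈ (PP w H).powerset, if (∏ p ∈ S, p) ∣ h then ∏ p ∈ S, gk k p else 0 := by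
  obtain ⟨h1, h2⟩ := mem_Icc.1 hh
  have e1 : h.primeFactors.filter (fun p => w < p) = (PP w H).filter (fun p => p ∣ h) := by
    ext p
    simp only [PP, mem_filter, Nat.mem_primeFactors, mem_Ioc]
    constructor
    · rintro ⟨⟨h3, h4, h5⟩, h6⟩
      exact ⟨⟨⟨h6, (Nat.le_of_dvd (by omega) h4).trans h2⟩, h3⟩, h4⟩
    · rintro ⟨⟨⟨h3, h4⟩, h5⟩, h6⟩
      exact ⟨⟨h5, h6, by omega⟩, h3⟩
  unfold GG
  rw [← prod_pow, e1]
  have e2 : ∏ p ∈ (PP w H).filter (fun p => p ∣ h), ((1 - 1 / (p : ℝ))⁻¹) ^ k =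
      ∏ p ∈ (PP w H).filter (fun p => p ∣ h), (1 + gk k p) := by
    refine prod_congr rfl fun p _ => ?_
    unfold gk
    ring
  rw [e2, prod_one_add, ← sum_filter]
  refine sum_congr ?_ fun _ _ => rfl
  ext S
  rw [mem_powerset, mem_filter, mem_powerset]
  constructor
  · intro h3
    refine ⟨h3.trans (filter_subset _ _), ?_⟩
    apply Finset.prod_primes_dvd
    · intro p hp
      exact ((mem_filter.1 ((mem_filter.1 (h3 hp)).1)).2).prime
    · intro p hp
      exact (mem_filter.1 (h3 hp)).2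
  · rintro ⟨h3, h4⟩ p hp
    exact mem_filter.2 ⟨h3 hp, (dvd_prod_of_mem _ hp).trans h4⟩

theorem tele {w H : ℕ} (hw : 1 ≤ w) :
    ∑ n ∈ Ioc w H, 1 / ((n : ℝ) * ((n : ℝ) - 1)) ≤ 1 / w := by
  have hw1 : (1 : ℝ) ≤ w := by exact_mod_cast hw
  rcases Nat.lt_or_ge H w with h | h
  · rw [Ioc_eq_empty_of_le h.le, sum_empty]
    positivity
  · have key : ∑ n ∈ Ioc w H, 1 / ((n : ℝ) * ((n : ℝ) - 1)) = 1 / w - 1 / H := by
      induction H, h using Nat.le_induction with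
      | base => simp
      | succ H hH ih =>
        rw [← Order.succ_eq_add_one, ← insert_Ioc_right_eq_Ioc_succ (by omega), sum_insert (by simp),
          ih, Order.succ_eq_add_one]
        have h3 : (1 : ℝ) ≤ H := by exact_mod_cast hw.trans hH
        push_cast
        have h4 : (H : ℝ) ≠ 0 := by linarith
        have h5 : (H : ℝ) + 1 ≠ 0 := by linarith
        have h6 : (w : ℝ) ≠ 0 := by linarith
        rw [add_sub_cancel_right]
        field_simp
        ring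
    rw [key]
    have : (0 : ℝ) ≤ 1 / H := by positivity
    linarith

theorem t_GM : S_GM := by
  intro w k H hk hkw
  have hw : 1 ≤ w := hk.trans hkw
  have hP : ∀ p ∈ PP w H, w < p ∧ p.Prime := fun p hp =>
    ⟨(mem_Ioc.1 (mem_filter.1 hp).1).1, (mem_filter.1 hp).2⟩
  have hg0 : ∀ p ∈ PP w H, 0 ≤ gk k p := fun p hp => gk_nonneg (hP p hp).2.two_le
  rw [sum_congr rfl fun h hh => GG_eq (w := w) (k := k) hh, sum_comm]
  have h1 : ∀ S ∈ (PP w H).powerset,
      ∑ h ∈ Icc 1 H, (if (∏ p ∈ S, p) ∣ h then ∏ p ∈ S, gk k p else 0) ≤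
        H * ∏ p ∈ S, (gk k p / p) := by
    intro S hS
    rw [mem_powerset] at hS
    rw [← sum_filter, sum_const, nsmul_eq_mul]
    have h2 : 0 ≤ ∏ p ∈ S, gk k p := prod_nonneg fun p hp => hg0 p (hS hp)
    have h3 : ((Icc 1 H).filter fun h => (∏ p ∈ S, p) ∣ h).card = H / ∏ p ∈ S, p := by
      have h4 := Nat.Ioc_filter_dvd_card_eq_div H (∏ p ∈ S, p)
      rw [← h4]
      congr 1
    have h5 : (0 : ℝ) < ∏ p ∈ S, (p : ℝ) :=
      prod_pos fun p hp => by exact_mod_cast (hP p (hS hp)).2.pos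
    rw [h3, prod_div_distrib]
    have h6 : ((H / ∏ p ∈ S, p : ℕ) : ℝ) ≤ H / ∏ p ∈ S, (p : ℝ) := by
      refine Nat.cast_div_le.trans (le_of_eq ?_)
      push_cast
      rfl
    calc ((H / ∏ p ∈ S, p : ℕ) : ℝ) * ∏ p ∈ S, gk k p
        ≤ (H / ∏ p ∈ S, (p : ℝ)) * ∏ p ∈ S, gk k p := mul_le_mul_of_nonneg_right h6 h2
      _ = H * ((∏ p ∈ S, gk k p) / ∏ p ∈ S, (p : ℝ)) := by ring
  refine (sum_le_sum h1).trans ?_
  rw [← mul_sum, ← prod_one_add]
  have h2 : ∏ p ∈ PP w H, (1 + gk k p / p) ≤ Real.exp (∑ p ∈ PP w H, gk k p / p) := by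
    rw [Real.exp_sum]
    refine prod_le_prod (fun p hp => ?_) fun p hp => ?_
    · have := hg0 p hp
      positivity
    · rw [add_comm]
      exact Real.add_one_le_exp _
  have h3 : ∑ p ∈ PP w H, gk k p / p ≤ 2 := by
    calc ∑ p ∈ PP w H, gk k p / p
        ≤ ∑ p ∈ PP w H, 2 * k * (1 / ((p : ℝ) * ((p : ℝ) - 1))) := by
          refine sum_le_sum fun p hp => ?_
          obtain ⟨h4, h5⟩ := hP p hp
          have h6 := gk_le hk (show k + 1 ≤ p by omega)
          have h7 : (0 : ℝ) < p := by exact_mod_cast h5.pos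
          have h8 : (0 : ℝ) < (p : ℝ) - 1 := by
            have : (1 : ℝ) < p := by exact_mod_cast h5.one_lt
            linarith
          rw [div_le_iff₀ h7]
          refine h6.trans (le_of_eq ?_)
          field_simp
      _ = 2 * k * ∑ p ∈ PP w H, (1 / ((p : ℝ) * ((p : ℝ) - 1))) := by rw [mul_sum]
      _ ≤ 2 * k * ∑ p ∈ Ioc w H, (1 / ((p : ℝ) * ((p : ℝ) - 1))) := by
          apply mul_le_mul_of_nonneg_left _ (by positivity)
          refine sum_le_sum_of_subset_of_nonneg (filter_subset _ _) fun n hn _ => ?_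
          have h9 : (1 : ℝ) ≤ n := by
            have := (mem_Ioc.1 hn).1
            exact_mod_cast (by omega : 1 ≤ n)
          have h10 : (0 : ℝ) ≤ (n : ℝ) - 1 := by linarith
          positivity
      _ ≤ 2 * k * (1 / w) := by
          apply mul_le_mul_of_nonneg_left (tele hw) (by positivity)
      _ ≤ 2 := by
          have h11 : (1 : ℝ) ≤ w := by exact_mod_cast hw
          have h12 : (k : ℝ) ≤ w := by exact_mod_cast hkw
          rw [mul_one_div, div_le_iff₀ (by linarith)]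
          linarith
  have h4 : Real.exp 2 ≤ 8 := by
    have h5 := Real.exp_one_lt_d9
    have h6 : Real.exp 2 = Real.exp 1 * Real.exp 1 := by rw [← Real.exp_add]; norm_num
    rw [h6]
    have h7 := Real.exp_pos 1
    nlinarith
  have h5 : ∏ p ∈ PP w H, (1 + gk k p / p) ≤ 8 :=
    h2.trans ((Real.exp_le_exp.2 h3).trans h4)
  have h6 : (0 : ℝ) ≤ H := Nat.cast_nonneg _
  nlinarith

end Pool.Agent.H122.KM
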